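import Mathlib
import Pool.Agent.TH278.Defs3
import Pool.Agent.TH554.J639

set_option autoImplicit false

/-! Coordinates and Tonelli for `E n`, products of one and two variable functions on the cube. -/

namespace Pool.Agent.TH225.BR

open MeasureTheory Set Complex
open scoped ENNReal RealInnerProductSpace
open Pool.Agent.H789R2.FR (E)
open Pool.Agent.TH278

/-! ### coordinates -/

theorem ins_same {m : ℕ} (i : Fin (m + 1)) (s : ℝ) (y : E m) : (ins i s y) i = s := by
  unfold ins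
  simp

theorem ins_succAbove {m : ℕ} (i : Fin (m + 1)) (s : ℝ) (y : E m) (j : Fin m) :
    (ins i s y) (i.succAbove j) = y j := by
  unfold ins
  simp

theorem ins_ne {m : ℕ} (i j : Fin (m + 1)) (h : j ≠ i) (s t : ℝ) (y : E m) :
    (ins i s y) j = (ins i t y) j := by
  obtain ⟨l, rfl⟩ := Fin.exists_succAbove_eq h
  rw [ins_succAbove, ins_succAbove]

theorem inp_zero {k : ℕ} (z : ℝ × ℝ) (w : E k) : (inp z w) 0 = z.1 := by
  unfold inp
  simp

theorem inp_one {k : ℕ} (z : ℝ × ℝ) (w : E k) : (inp z w) 1 = z.2 := by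
  unfold inp
  simp

theorem inp_succ {k : ℕ} (z : ℝ × ℝ) (w : E k) (i : Fin k) : (inp z w) i.succ.succ = w i := by
  unfold inp
  simp

theorem ins_meas {m : ℕ} (i : Fin (m + 1)) :
    Measurable (fun x : ℝ × E m => ins i x.1 x.2) := by
  obtain ⟨ι, h1, -, -, -⟩ := Pool.Agent.TH554.J639.ins_equiv m i
  have : (fun x : ℝ × E m => ins i x.1 x.2) = ι := funext fun x => (h1 x).symm
  rw [this]
  exact ι.measurable

theorem inp_meas {k : ℕ} : Measurable (fun x : (ℝ × ℝ) × E k => inp x.1 x.2) := by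
  obtain ⟨ι, h1, -, -, -⟩ := Pool.Agent.TH554.J639.inp_equiv k
  have : (fun x : (ℝ × ℝ) × E k => inp x.1 x.2) = ι := funext fun x => (h1 x).symm
  rw [this]
  exact ι.measurable

theorem lint_ins {m : ℕ} (i : Fin (m + 1)) (Φ : E (m + 1) → ℝ≥0∞) (hΦ : Measurable Φ) :
    ∫⁻ x, Φ x = ∫⁻ s : ℝ, ∫⁻ y : E m, Φ (ins i s y) := by
  obtain ⟨ι, h1, h2, -, -⟩ := Pool.Agent.TH554.J639.ins_equiv m i
  rw [← h2.lintegral_comp hΦ]
  have h3 : ∀ x, Φ (ι x) = Φ (ins i x.1 x.2) := fun x => by rw [h1]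
  simp only [h3]
  exact lintegral_prod _ (hΦ.comp (ins_meas i)).aemeasurable

theorem lint_inp {k : ℕ} (Φ : E (k + 2) → ℝ≥0∞) (hΦ : Measurable Φ) :
    ∫⁻ x, Φ x = ∫⁻ z : ℝ × ℝ, ∫⁻ w : E k, Φ (inp z w) := by
  obtain ⟨ι, h1, h2, -, -⟩ := Pool.Agent.TH554.J639.inp_equiv k
  rw [← h2.lintegral_comp hΦ]
  have h3 : ∀ x, Φ (ι x) = Φ (inp x.1 x.2) := fun x => by rw [h1]
  simp only [h3]
  exact lintegral_prod _ (hΦ.comp inp_meas).aemeasurable

theorem coord_meas {n : ℕ} (i : Fin n) : Measurable (fun x : E n => x i) := by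
  fun_prop

theorem lint_pi (k : ℕ) (ψ : Fin k → ℝ → ℝ≥0∞) (hψ : ∀ i, Measurable (ψ i)) :
    ∫⁻ w : E k, ∏ i, ψ i (w i) = ∏ i, ∫⁻ s, ψ i s := by
  induction k with
  | zero =>
    simp only [Finset.univ_eq_empty, Finset.prod_empty, lintegral_one]
    have h := (PiLp.volume_preserving_toLp (Fin 0)).measure_preimage
      (MeasurableSet.univ.nullMeasurableSet)
    rw [← h, preimage_univ, volume_pi, Measure.pi_univ]
    simp
  | succ k ih =>
    rw [lint_ins 0 _ (by
      refine Finset.measurable_prod _ fun i _ => ?_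
      exact (hψ i).comp (coord_meas i))]
    have h1 : ∀ (s : ℝ) (y : E k), ∏ i, ψ i ((ins 0 s y) i) = ψ 0 s * ∏ i : Fin k, ψ i.succ (y i) := by
      intro s y
      rw [Fin.prod_univ_succ, ins_same]
      congr 1
    simp only [h1]
    have h2 : ∀ s : ℝ, ∫⁻ y : E k, ψ 0 s * ∏ i : Fin k, ψ i.succ (y i) =
        ψ 0 s * ∏ i : Fin k, ∫⁻ s, ψ i.succ s := by
      intro s
      rw [lintegral_const_mul _ (by
        refine Finset.measurable_prod _ fun i _ => ?_
        exact (hψ i.succ).comp (coord_meas i)), ih _ (fun i => hψ i.succ)]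
    simp only [h2]
    rw [lintegral_mul_const _ (hψ 0), Fin.prod_univ_succ]

/-! ### the cube -/

theorem cube_meas (n : ℕ) (B : ℝ) : MeasurableSet (Cube n B) := by
  have : Cube n B = ⋂ i : Fin n, {x : E n | |x i| ≤ B} := by
    ext x
    simp [Cube]
  rw [this]
  refine MeasurableSet.iInter fun i => ?_
  exact measurableSet_le ((coord_meas i).abs) measurable_const

theorem mem_cube_ins {m : ℕ} (i : Fin (m + 1)) (B s : ℝ) (y : E m) :
    ins i s y ∈ Cube (m + 1) B ↔ |s| ≤ B ∧ y ∈ Cube m B := by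
  unfold Cube
  simp only [mem_ofPred_eq]
  rw [Fin.forall_iff_succAbove i]
  simp only [ins_same, ins_succAbove]

theorem mem_cube_inp {k : ℕ} (B : ℝ) (z : ℝ × ℝ) (w : E k) :
    inp z w ∈ Cube (k + 2) B ↔ z ∈ Icc (-B) B ×ˢ Icc (-B) B ∧ w ∈ Cube k B := by
  unfold Cube
  simp only [mem_ofPred_eq, mem_prod, mem_Icc, ← abs_le]
  rw [Fin.forall_fin_succ, Fin.forall_fin_succ, inp_zero]
  have h1 : (inp z w) (Fin.succ 0) = z.2 := inp_one z w
  rw [h1]
  simp only [inp_succ]
  tauto

/-- product functions on slices of the cube -/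
theorem lint_slice {k : ℕ} (B : ℝ) (g : ℝ × ℝ → ℝ≥0∞) (φ : Fin k → ℝ → ℝ≥0∞)
    (hφ : ∀ i, Measurable (φ i)) (z : ℝ × ℝ) :
    ∫⁻ w : E k, (Cube (k + 2) B).indicator
      (fun x : E (k + 2) => g (x 0, x 1) * ∏ i : Fin k, φ i (x i.succ.succ)) (inp z w) =
      (Icc (-B) B ×ˢ Icc (-B) B).indicator g z * ∏ i : Fin k, ∫⁻ s in Icc (-B) B, φ i s := by
  have h1 : ∀ (w : E k), (Cube (k + 2) B).indicator
      (fun x : E (k + 2) => g (x 0, x 1) * ∏ i : Fin k, φ i (x i.succ.succ)) (inp z w) =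
      (Icc (-B) B ×ˢ Icc (-B) B).indicator g z *
        ∏ i : Fin k, (Icc (-B) B).indicator (φ i) (w i) := by
    intro w
    by_cases hz : z ∈ Icc (-B) B ×ˢ Icc (-B) B
    · by_cases hw : w ∈ Cube k B
      · rw [indicator_of_mem ((mem_cube_inp B z w).2 ⟨hz, hw⟩), indicator_of_mem hz]
        simp only [inp_zero, inp_one, inp_succ]
        congr 1
        refine Finset.prod_congr rfl fun i _ => ?_
        rw [indicator_of_mem]
        exact abs_le.1 (hw i)
      · rw [indicator_of_notMem (fun h => hw ((mem_cube_inp B z w).1 h).2)]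
        have : ∃ i, ¬ |w i| ≤ B := by
          by_contra h
          push Not at h
          exact hw h
        obtain ⟨i, hi⟩ := this
        have h0 : ∏ i : Fin k, (Icc (-B) B).indicator (φ i) (w i) = 0 := by
          refine Finset.prod_eq_zero (Finset.mem_univ i) ?_
          rw [indicator_of_notMem]
          intro h
          exact hi (abs_le.2 h)
        rw [h0, mul_zero]
    · rw [indicator_of_notMem (fun h => hz ((mem_cube_inp B z w).1 h).1), indicator_of_notMem hz,
        zero_mul]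
  simp only [h1]
  have hpm' : Measurable (fun w : E k => ∏ i, (Icc (-B) B).indicator (φ i) (w i)) :=
    Finset.measurable_prod _ fun i _ => ((hφ i).indicator measurableSet_Icc).comp (coord_meas i)
  rw [lintegral_const_mul _ hpm', lint_pi k (fun i => (Icc (-B) B).indicator (φ i)) fun i =>
      (hφ i).indicator measurableSet_Icc]
  congr 1
  refine Finset.prod_congr rfl fun i _ => ?_
  rw [lintegral_indicator measurableSet_Icc]

theorem prodfun_meas {k : ℕ} (g : ℝ × ℝ → ℝ≥0∞) (φ : Fin k → ℝ → ℝ≥0∞) (hg : Measurable g)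
    (hφ : ∀ i, Measurable (φ i)) :
    Measurable (fun x : E (k + 2) => g (x 0, x 1) * ∏ i : Fin k, φ i (x i.succ.succ)) := by
  have hgm : Measurable (fun x : E (k + 2) => g (x 0, x 1)) :=
    hg.comp ((coord_meas 0).prodMk (coord_meas 1))
  have hpm : Measurable (fun x : E (k + 2) => ∏ i : Fin k, φ i (x i.succ.succ)) :=
    Finset.measurable_prod _ fun i _ => (hφ i).comp (coord_meas _)
  exact hgm.mul hpm

/-- product functions on the cube -/
theorem lint_prod {k : ℕ} (B : ℝ) (g : ℝ × ℝ → ℝ≥0∞) (φ : Fin k → ℝ → ℝ≥0∞) (hg : Measurable g)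
    (hφ : ∀ i, Measurable (φ i)) :
    ∫⁻ x in Cube (k + 2) B, g (x 0, x 1) * ∏ i : Fin k, φ i (x i.succ.succ) =
      (∫⁻ z in Icc (-B) B ×ˢ Icc (-B) B, g z) * ∏ i : Fin k, ∫⁻ s in Icc (-B) B, φ i s := by
  rw [← lintegral_indicator (cube_meas _ _),
    lint_inp _ ((prodfun_meas g φ hg hφ).indicator (cube_meas _ _))]
  simp only [lint_slice B g φ hφ]
  rw [lintegral_mul_const _ (hg.indicator (measurableSet_Icc.prod measurableSet_Icc)),
    lintegral_indicator (measurableSet_Icc.prod measurableSet_Icc)]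

theorem vol_Icc (B : ℝ) : ∫⁻ _s in Icc (-B) B, (1 : ℝ≥0∞) = ENNReal.ofReal (2 * B) := by
  rw [setLIntegral_one, Real.volume_Icc]
  congr 1
  ring

theorem vol_cube_lt (n : ℕ) (B : ℝ) : volume (Cube n B) < ∞ := by
  have h := lint_pi n (fun _ => (Icc (-B) B).indicator (fun _ => (1 : ℝ≥0∞)))
    (fun _ => measurable_const.indicator measurableSet_Icc)
  have h1 : ∀ w : E n, (Cube n B).indicator (fun _ => (1 : ℝ≥0∞)) w =
      ∏ i, (Icc (-B) B).indicator (fun _ => (1 : ℝ≥0∞)) (w i) := by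
    intro w
    by_cases hw : w ∈ Cube n B
    · rw [indicator_of_mem hw]
      symm
      refine Finset.prod_eq_one fun i _ => ?_
      rw [indicator_of_mem]
      exact abs_le.1 (hw i)
    · rw [indicator_of_notMem hw]
      have : ∃ i, ¬ |w i| ≤ B := by
        by_contra h
        push Not at h
        exact hw h
      obtain ⟨i, hi⟩ := this
      symm
      refine Finset.prod_eq_zero (Finset.mem_univ i) ?_
      rw [indicator_of_notMem]
      intro h
      exact hi (abs_le.2 h)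
  have h2 : volume (Cube n B) = ∏ _i : Fin n, ENNReal.ofReal (2 * B) := by
    rw [← lintegral_indicator_one (cube_meas n B)]
    change ∫⁻ w, (Cube n B).indicator (fun _ => (1 : ℝ≥0∞)) w = _
    simp only [h1]
    rw [h]
    refine Finset.prod_congr rfl fun i _ => ?_
    rw [lintegral_indicator measurableSet_Icc, vol_Icc]
  rw [h2]
  exact ENNReal.prod_lt_top fun i _ => ENNReal.ofReal_lt_top

end Pool.Agent.TH225.BR
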