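import Mathlib
import Pool.Agent.TH225.BR.A
import Pool.Agent.H438R2.RZ.R3

set_option autoImplicit false

/-! The kernel of the annulus operator. -/

namespace Pool.Agent.TH225.BR

open MeasureTheory Set Complex
open scoped ENNReal RealInnerProductSpace
open Pool.Agent.H438R2.RZ (e Good ft Pl Bump TR)
open Pool.Agent.H789R2.FR (E)
open Pool.Agent.TH278

theorem ML_cont {ψ : ℝ → ℝ} (hψ : Bump ψ) (L : ℝ) : Continuous (ML ψ L) := by
  unfold ML
  have := hψ.1.continuous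
  fun_prop

theorem ML_zero {ψ : ℝ → ℝ} (hψ : Bump ψ) (L : ℝ) : ∀ u, 2 < u → ML ψ L u = 0 := by
  intro u hu
  unfold ML
  by_contra h
  have h1 := (hψ.2 _ h).1
  nlinarith [sq_nonneg L]

/-- the kernel -/
noncomputable def Kc (n : ℕ) (ψ : ℝ → ℝ) (L : ℝ) (x : E n) : ℂ :=
  ∫ ξ : E n, ((ML ψ L (‖ξ‖ ^ 2) : ℝ) : ℂ) * e (⟪x, ξ⟫ : ℝ)

theorem ML_int (n : ℕ) {ψ : ℝ → ℝ} (hψ : Bump ψ) (L : ℝ) :
    Integrable (fun ξ : E n => ((ML ψ L (‖ξ‖ ^ 2) : ℝ) : ℂ)) :=
  Pool.Agent.TH554.J639.M_int n _ (ML_cont hψ L) (ML_zero hψ L)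

theorem e_norm' (x : ℝ) : ‖e x‖ = 1 := Pool.Agent.TH554.J639.e_norm x

theorem Kc_bound (n : ℕ) {ψ : ℝ → ℝ} (hψ : Bump ψ) (L : ℝ) :
    ∃ C : ℝ, 0 ≤ C ∧ ∀ x : E n, ‖Kc n ψ L x‖ ≤ C := by
  refine ⟨∫ ξ : E n, ‖((ML ψ L (‖ξ‖ ^ 2) : ℝ) : ℂ)‖, integral_nonneg fun _ => norm_nonneg _, ?_⟩
  intro x
  unfold Kc
  refine (norm_integral_le_integral_norm _).trans (le_of_eq ?_)
  refine integral_congr_ae (ae_of_all _ fun ξ => ?_)
  simp only [norm_mul, e_norm', mul_one]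

theorem Kc_cont (n : ℕ) {ψ : ℝ → ℝ} (hψ : Bump ψ) (L : ℝ) : Continuous (Kc n ψ L) := by
  unfold Kc
  have hM := ML_cont hψ L
  have he : Continuous e := Pool.Agent.TH554.J639.e_cont
  refine continuous_of_dominated (bound := fun ξ => ‖((ML ψ L (‖ξ‖ ^ 2) : ℝ) : ℂ)‖) ?_ ?_ ?_ ?_
  · intro x
    refine Continuous.aestronglyMeasurable ?_
    fun_prop
  · intro x
    refine ae_of_all _ fun ξ => ?_
    rw [norm_mul, e_norm', mul_one]
  · exact (ML_int n hψ L).norm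
  · refine ae_of_all _ fun ξ => ?_
    fun_prop

theorem TR_eq (n : ℕ) {ψ : ℝ → ℝ} (hψ : Bump ψ) (L : ℝ) (f : E n → ℂ) (hf : Integrable f)
    (x : E n) : TR n (ML ψ L) f x = ∫ y : E n, Kc n ψ L (x - y) * f y :=
  Pool.Agent.H438R2.RZ.TR_conv n _ (ML_cont hψ L) (ML_zero hψ L) f hf x

theorem TR_cont (n : ℕ) {ψ : ℝ → ℝ} (hψ : Bump ψ) (L : ℝ) (f : E n → ℂ) (hf : Integrable f) :
    Continuous (TR n (ML ψ L) f) := by
  obtain ⟨C, hC0, hC⟩ := Kc_bound n hψ L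
  have h : TR n (ML ψ L) f = fun x => ∫ y : E n, Kc n ψ L (x - y) * f y :=
    funext fun x => TR_eq n hψ L f hf x
  rw [h]
  have hK := Kc_cont n hψ L
  refine continuous_of_dominated (bound := fun y => C * ‖f y‖) ?_ ?_ ?_ ?_
  · intro x
    exact (Continuous.aestronglyMeasurable (by fun_prop)).mul hf.aestronglyMeasurable
  · intro x
    refine ae_of_all _ fun y => ?_
    rw [norm_mul]
    exact mul_le_mul_of_nonneg_right (hC _) (norm_nonneg _)
  · exact hf.norm.const_mul C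
  · refine ae_of_all _ fun y => ?_
    fun_prop

theorem TR_bound (n : ℕ) {ψ : ℝ → ℝ} (hψ : Bump ψ) (L : ℝ) (f : E n → ℂ) (hf : Integrable f) :
    ∃ C : ℝ, 0 ≤ C ∧ ∀ x, ‖TR n (ML ψ L) f x‖ ≤ C := by
  obtain ⟨C, hC0, hC⟩ := Kc_bound n hψ L
  refine ⟨∫ y, C * ‖f y‖, integral_nonneg fun _ => by positivity, fun x => ?_⟩
  rw [TR_eq n hψ L f hf]
  refine norm_integral_le_of_norm_le (hf.norm.const_mul C) ?_
  refine ae_of_all _ fun y => ?_
  rw [norm_mul]
  exact mul_le_mul_of_nonneg_right (hC _) (norm_nonneg _)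

/-- bounded measurable functions supported in the cube -/
theorem goodN_of {n : ℕ} {B : ℝ} (f : E n → ℂ) (hf : Measurable f) (C : ℝ) (hC : ∀ x, ‖f x‖ ≤ C)
    (hB : 0 ≤ B) (hs : ∀ x, f x ≠ 0 → x ∈ Cube n B) : GoodN f := by
  refine ⟨hf, ⟨C, hC⟩, Real.sqrt (n * B ^ 2), ?_⟩
  intro x hx
  have h := hs x hx
  rw [EuclideanSpace.norm_eq]
  refine Real.sqrt_le_sqrt ?_
  calc ∑ i, ‖x i‖ ^ 2 ≤ ∑ _i : Fin n, B ^ 2 := by
        refine Finset.sum_le_sum fun i _ => ?_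
        rw [Real.norm_eq_abs]
        exact pow_le_pow_left₀ (abs_nonneg _) (h i) 2
    _ = n * B ^ 2 := by simp

theorem int_of {n : ℕ} {B : ℝ} (f : E n → ℂ) (hf : Measurable f) (C : ℝ) (hC : ∀ x, ‖f x‖ ≤ C)
    (hs : ∀ x, f x ≠ 0 → x ∈ Cube n B) : Integrable f := by
  have h1 : f = (Cube n B).indicator f := by
    ext x
    by_cases hx : x ∈ Cube n B
    · rw [indicator_of_mem hx]
    · rw [indicator_of_notMem hx]
      by_contra h
      exact hx (hs x h)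
  rw [h1, integrable_indicator_iff (cube_meas n B)]
  have : IsFiniteMeasure (volume.restrict (Cube n B)) :=
    ⟨by rw [Measure.restrict_apply_univ]; exact vol_cube_lt n B⟩
  exact Integrable.of_bound hf.aestronglyMeasurable C (ae_of_all _ hC)

/-- the bilinear form of functions supported in the cube -/
theorem Bf_eq {n : ℕ} {B : ℝ} {ψ : ℝ → ℝ} (hψ : Bump ψ) (L : ℝ) (f h : E n → ℂ)
    (hf : Integrable ((Cube n B).indicator f)) :
    Bf ψ L ((Cube n B).indicator f) ((Cube n B).indicator h) =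
      ∫ x in Cube n B, ∫ y in Cube n B, Kc n ψ L (x - y) * f y * h x := by
  unfold Bf
  rw [← integral_indicator (cube_meas n B)]
  refine integral_congr_ae (ae_of_all _ fun x => ?_)
  simp only
  by_cases hx : x ∈ Cube n B
  · rw [indicator_of_mem hx, indicator_of_mem hx,
      TR_eq n hψ L _ hf, integral_mul_const]
    congr 1
    rw [← integral_indicator (cube_meas n B)]
    refine integral_congr_ae (ae_of_all _ fun y => ?_)
    simp only
    by_cases hy : y ∈ Cube n B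
    · rw [indicator_of_mem hy, indicator_of_mem hy]
    · rw [indicator_of_notMem hy, indicator_of_notMem hy, mul_zero]
  · rw [indicator_of_notMem hx, indicator_of_notMem hx, mul_zero]

theorem ind_bound {n : ℕ} {B C : ℝ} (f : E n → ℂ) (hC : ∀ x, ‖f x‖ ≤ C) (x : E n) :
    ‖(Cube n B).indicator f x‖ ≤ C := by
  by_cases hx : x ∈ Cube n B
  · rw [indicator_of_mem hx]
    exact hC x
  · rw [indicator_of_notMem hx, norm_zero]
    exact (norm_nonneg _).trans (hC x)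

theorem good_ind {n : ℕ} {B : ℝ} (hB : 0 ≤ B) (f : E n → ℂ) (hf : Measurable f) (C : ℝ)
    (hC : ∀ x, ‖f x‖ ≤ C) : GoodN ((Cube n B).indicator f) :=
  goodN_of _ (hf.indicator (cube_meas n B)) C (ind_bound f hC) hB
    (fun x hx => by
      by_contra h
      exact hx (indicator_of_notMem h _))

theorem int_ind {n : ℕ} {B : ℝ} (f : E n → ℂ) (hf : Measurable f) (C : ℝ)
    (hC : ∀ x, ‖f x‖ ≤ C) : Integrable ((Cube n B).indicator f) :=
  int_of _ (hf.indicator (cube_meas n B)) C (ind_bound f hC)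
    (fun x hx => by
      by_contra h
      exact hx (indicator_of_notMem h _))

theorem norm_le_of {z : ℂ} {A : ℝ} (hA : 0 ≤ A) {c : ℝ≥0∞} (h : ‖z‖ₑ ≤ ENNReal.ofReal A * c)
    (hc : c ≤ 1) : ‖z‖ ≤ A := by
  have h1 : ‖z‖ₑ ≤ ENNReal.ofReal A := by
    calc _ ≤ ENNReal.ofReal A * c := h
      _ ≤ ENNReal.ofReal A * 1 := mul_le_mul' le_rfl hc
      _ = _ := mul_one _
  rw [← ofReal_norm] at h1
  exact (ENNReal.ofReal_le_ofReal_iff hA).1 h1

end Pool.Agent.TH225.BR
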