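import Mathlib
import Pool.Agent.TH225.BR.B

set_option autoImplicit false

/-! Bounded functions, marginals, and the norms of the two factors of the vertex forms. -/

namespace Pool.Agent.TH225.BR

open MeasureTheory Set Complex
open scoped ENNReal RealInnerProductSpace
open Pool.Agent.H789R2.FR (E)
open Pool.Agent.TH278

/-- bounded above and below by positive constants -/
def BD {X : Type} (f : X → ℝ) : Prop := ∃ m M : ℝ, 0 < m ∧ ∀ x, m ≤ f x ∧ f x ≤ M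

theorem BD.pos {X : Type} {f : X → ℝ} (h : BD f) (x : X) : 0 < f x := by
  obtain ⟨m, M, hm, h⟩ := h
  exact hm.trans_le (h x).1

theorem BD.mul {X : Type} {f g : X → ℝ} (hf : BD f) (hg : BD g) : BD (fun x => f x * g x) := by
  obtain ⟨m, M, hm, hf⟩ := hf
  obtain ⟨m', M', hm', hg⟩ := hg
  refine ⟨m * m', M * M', by positivity, fun x => ⟨?_, ?_⟩⟩
  · exact mul_le_mul (hf x).1 (hg x).1 hm'.le (hm.trans_le (hf x).1).le
  · exact mul_le_mul (hf x).2 (hg x).2 (hm'.trans_le (hg x).1).le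
      ((hm.trans_le (hf x).1).le.trans (hf x).2)

theorem BD.rpow {X : Type} {f : X → ℝ} (hf : BD f) (r : ℝ) : BD (fun x => f x ^ r) := by
  obtain ⟨m, M, hm, hf⟩ := hf
  by_cases hX : Nonempty X
  · obtain ⟨x₀⟩ := hX
    have hM : 0 < M := (hm.trans_le (hf x₀).1).trans_le (hf x₀).2
    rcases le_total 0 r with hr | hr
    · refine ⟨m ^ r, M ^ r, Real.rpow_pos_of_pos hm r, fun x => ⟨?_, ?_⟩⟩
      · exact Real.rpow_le_rpow hm.le (hf x).1 hr
      · exact Real.rpow_le_rpow (hm.trans_le (hf x).1).le (hf x).2 hr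
    · refine ⟨M ^ r, m ^ r, Real.rpow_pos_of_pos hM r, fun x => ⟨?_, ?_⟩⟩
      · exact Real.rpow_le_rpow_of_nonpos (hm.trans_le (hf x).1) (hf x).2 hr
      · exact Real.rpow_le_rpow_of_nonpos hm (hf x).1 hr
  · exact ⟨1, 1, one_pos, fun x => (hX ⟨x⟩).elim⟩

theorem BD.comp {X Y : Type} {f : X → ℝ} (hf : BD f) (T : Y → X) : BD (fun y => f (T y)) := by
  obtain ⟨m, M, hm, hf⟩ := hf
  exact ⟨m, M, hm, fun y => hf (T y)⟩

theorem BD.one {X : Type} : BD (fun _ : X => (1 : ℝ)) := ⟨1, 1, one_pos, fun _ => ⟨le_rfl, le_rfl⟩⟩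

theorem BD.prod {X ι : Type} (s : Finset ι) (f : ι → X → ℝ) (h : ∀ i ∈ s, BD (f i)) :
    BD (fun x => ∏ i ∈ s, f i x) := by
  classical
  induction s using Finset.induction_on with
  | empty =>
    simp only [Finset.prod_empty]
    exact BD.one
  | insert a s ha ih =>
    simp only [Finset.prod_insert ha]
    exact (h a (Finset.mem_insert_self a s)).mul
      (ih fun i hi => h i (Finset.mem_insert_of_mem hi))

/-- marginals -/
theorem marg {n : ℕ} {X Y : Type} [MeasurableSpace X] [MeasureSpace Y]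
    [SFinite (volume : Measure Y)] (T : X → Y → E n) (hT : Measurable (Function.uncurry T))
    (Φ : E n → ℝ≥0∞) (hΦ : Measurable Φ) (C : ℝ) (hC : ∀ x, Φ x ≤ ENNReal.ofReal C) (S : Set Y)
    (hSm : MeasurableSet S) (hS : volume S < ∞) (hTS : ∀ x y, Φ (T x y) ≠ 0 → y ∈ S) :
    ∃ M : X → ℝ, Measurable M ∧ (∀ x, 0 ≤ M x) ∧ (∃ C' : ℝ, ∀ x, M x ≤ C') ∧
      ∀ x, ENNReal.ofReal (M x) = ∫⁻ y, Φ (T x y) := by
  have hb : ∀ x, ∫⁻ y, Φ (T x y) ≤ ENNReal.ofReal C * volume S := by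
    intro x
    calc ∫⁻ y, Φ (T x y) ≤ ∫⁻ y, S.indicator (fun _ => ENNReal.ofReal C) y := by
          refine lintegral_mono fun y => ?_
          by_cases hy : y ∈ S
          · rw [indicator_of_mem hy]
            exact hC _
          · have : Φ (T x y) = 0 := by
              by_contra h
              exact hy (hTS x y h)
            simp only [this]
            exact zero_le
      _ = ENNReal.ofReal C * volume S := by
          rw [lintegral_indicator_const hSm]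
  have hfin : ENNReal.ofReal C * volume S < ∞ := ENNReal.mul_lt_top ENNReal.ofReal_lt_top hS
  refine ⟨fun x => (∫⁻ y, Φ (T x y)).toReal, ?_, fun x => ENNReal.toReal_nonneg,
    ⟨(ENNReal.ofReal C * volume S).toReal, fun x => ?_⟩, fun x => ?_⟩
  · refine Measurable.ennreal_toReal ?_
    exact Measurable.lintegral_prod_right' (f := fun q : X × Y => Φ (T q.1 q.2)) (hΦ.comp hT)
  · exact ENNReal.toReal_mono hfin.ne (hb x)
  · exact ENNReal.ofReal_toReal ((hb x).trans_lt hfin).ne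

theorem ind_sq {n : ℕ} (D : Set (E n)) (f : E n → ℂ) (Φ : E n → ℝ≥0∞)
    (h : ∀ x ∈ D, ‖f x‖ₑ ^ 2 ≤ Φ x) (x : E n) : ‖D.indicator f x‖ₑ ^ 2 ≤ D.indicator Φ x := by
  by_cases hx : x ∈ D
  · rw [indicator_of_mem hx, indicator_of_mem hx]
    exact h x hx
  · rw [indicator_of_notMem hx, indicator_of_notMem hx]
    simp

theorem enorm_sq_le {a : ℂ} {r : ℝ} (h : ‖a‖ ^ 2 ≤ r) : ‖a‖ₑ ^ 2 ≤ ENNReal.ofReal r := by
  rw [← ofReal_norm, ← ENNReal.ofReal_pow (norm_nonneg _)]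
  exact ENNReal.ofReal_le_ofReal h

/-! ### the factor `h` -/

section H

variable {k : ℕ} {B : ℝ} (H : E (k + 2) → ℝ) (hH : Measurable H) (hH0 : ∀ x, 0 ≤ H x)
  (hHD : ∫⁻ x in Cube (k + 2) B, ENNReal.ofReal (H x) ≤ 1)

include hHD in
theorem H0 (h : E (k + 2) → ℂ) (hh : ∀ x ∈ Cube (k + 2) B, ‖h x‖ ^ 2 ≤ H x) :
    ∫⁻ x, ‖(Cube (k + 2) B).indicator h x‖ₑ ^ 2 ≤ 1 := by
  refine le_trans (lintegral_mono (g := (Cube (k + 2) B).indicator fun x =>
    ENNReal.ofReal (H x)) ?_) ?_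
  · intro x
    exact ind_sq _ _ _ (fun x hx => enorm_sq_le (hh x hx)) x
  · rw [lintegral_indicator (cube_meas _ _)]
    exact hHD

theorem H1 (i : Fin (k + 2)) (M : ℝ → ℝ) (hM0 : ∀ s, 0 ≤ M s)
    (hM : ∀ s, ENNReal.ofReal (M s) = ∫⁻ y : E (k + 1), (Cube (k + 2) B).indicator
      (fun x => ENNReal.ofReal (H x)) (ins i s y)) (ε : ℝ) (hε : 0 < ε)
    (h : E (k + 2) → ℂ) (hh : ∀ x ∈ Cube (k + 2) B, ‖h x‖ ^ 2 ≤ (M (x i) + ε)⁻¹ * H x) (s : ℝ) :
    ∫⁻ y : E (k + 1), ‖(Cube (k + 2) B).indicator h (ins i s y)‖ₑ ^ 2 ≤ 1 := by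
  have hpos : 0 < M s + ε := by have := hM0 s; linarith
  have h1 : ∀ y : E (k + 1), ‖(Cube (k + 2) B).indicator h (ins i s y)‖ₑ ^ 2 ≤
      ENNReal.ofReal (M s + ε)⁻¹ * (Cube (k + 2) B).indicator
      (fun x => ENNReal.ofReal (H x)) (ins i s y) := by
    intro y
    by_cases hx : ins i s y ∈ Cube (k + 2) B
    · rw [indicator_of_mem hx, indicator_of_mem hx, ← ENNReal.ofReal_mul (by positivity)]
      refine enorm_sq_le ?_
      have := hh _ hx
      rwa [ins_same] at this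
    · rw [indicator_of_notMem hx]
      simp
  refine (lintegral_mono h1).trans ?_
  rw [lintegral_const_mul' _ _ ENNReal.ofReal_ne_top, ← hM, ← ENNReal.ofReal_mul (by positivity)]
  rw [← ENNReal.ofReal_one]
  refine ENNReal.ofReal_le_ofReal ?_
  rw [inv_mul_le_iff₀ hpos]
  linarith

include hH hHD in
theorem H2 (M : ℝ × ℝ → ℝ) (hM0 : ∀ z, 0 ≤ M z)
    (hM : ∀ z, ENNReal.ofReal (M z) = ∫⁻ w : E k, (Cube (k + 2) B).indicator
      (fun x => ENNReal.ofReal (H x)) (inp z w)) (ε : ℝ) (hε : 0 < ε)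
    (h : E (k + 2) → ℂ)
    (hh : ∀ x ∈ Cube (k + 2) B, ‖h x‖ ^ 2 ≤ (M (x 0, x 1) + ε) ^ (-(1 / 2) : ℝ) * H x) :
    (∫⁻ z : ℝ × ℝ, (∫⁻ w : E k, ‖(Cube (k + 2) B).indicator h (inp z w)‖ₑ ^ 2) ^ 2) ^
      (1 / 4 : ℝ) ≤ 1 := by
  have hpos : ∀ z, 0 < M z + ε := fun z => by have := hM0 z; linarith
  have h1 : ∀ z, ∀ w : E k, ‖(Cube (k + 2) B).indicator h (inp z w)‖ₑ ^ 2 ≤
      ENNReal.ofReal ((M z + ε) ^ (-(1 / 2) : ℝ)) * (Cube (k + 2) B).indicator
      (fun x => ENNReal.ofReal (H x)) (inp z w) := by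
    intro z w
    have h0 : 0 ≤ (M z + ε) ^ (-(1 / 2) : ℝ) := Real.rpow_nonneg (hpos z).le _
    by_cases hx : inp z w ∈ Cube (k + 2) B
    · rw [indicator_of_mem hx, indicator_of_mem hx, ← ENNReal.ofReal_mul h0]
      refine enorm_sq_le ?_
      have := hh _ hx
      rwa [inp_zero, inp_one] at this
    · rw [indicator_of_notMem hx]
      simp
  have h2 : ∀ z, (∫⁻ w : E k, ‖(Cube (k + 2) B).indicator h (inp z w)‖ₑ ^ 2) ^ 2 ≤
      ENNReal.ofReal (M z) := by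
    intro z
    have h0 : 0 ≤ (M z + ε) ^ (-(1 / 2) : ℝ) := Real.rpow_nonneg (hpos z).le _
    have h3 : ∫⁻ w : E k, ‖(Cube (k + 2) B).indicator h (inp z w)‖ₑ ^ 2 ≤
        ENNReal.ofReal ((M z + ε) ^ (-(1 / 2) : ℝ) * M z) := by
      refine (lintegral_mono (h1 z)).trans ?_
      rw [lintegral_const_mul' _ _ ENNReal.ofReal_ne_top, ← hM, ← ENNReal.ofReal_mul h0]
    refine (pow_le_pow_left₀ (by positivity) h3 2).trans ?_
    rw [← ENNReal.ofReal_pow (mul_nonneg h0 (hM0 z))]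
    refine ENNReal.ofReal_le_ofReal ?_
    rw [mul_pow, ← Real.rpow_natCast, ← Real.rpow_mul (hpos z).le]
    norm_num
    rw [Real.rpow_neg_one, inv_mul_le_iff₀ (hpos z)]
    have := hM0 z
    nlinarith
  have h4 : ∫⁻ z : ℝ × ℝ, (∫⁻ w : E k, ‖(Cube (k + 2) B).indicator h (inp z w)‖ₑ ^ 2) ^ 2 ≤ 1 := by
    refine (lintegral_mono h2).trans ?_
    simp only [hM]
    rw [← lint_inp _ ((hH.ennreal_ofReal).indicator (cube_meas _ _)),
      lintegral_indicator (cube_meas _ _)]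
    exact hHD
  calc _ ≤ (1 : ℝ≥0∞) ^ (1 / 4 : ℝ) := ENNReal.rpow_le_rpow h4 (by norm_num)
    _ = 1 := by simp

end H

end Pool.Agent.TH225.BR
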