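import Mathlib
import Pool.Agent.TH225.BR.C

set_option autoImplicit false

/-! Norms of the first factor of the vertex forms. -/

namespace Pool.Agent.TH225.BR

open MeasureTheory Set Complex
open scoped ENNReal RealInnerProductSpace
open Pool.Agent.H789R2.FR (E)
open Pool.Agent.TH278

section F

variable {k : ℕ} {B p : ℝ} (hB : 0 < B) (hp : 0 < p) (g : ℝ × ℝ → ℝ) (φ : Fin k → ℝ → ℝ)
  (hg : Measurable g) (hφ : ∀ i, Measurable (φ i)) (hg0 : ∀ z, 0 < g z) (hφ0 : ∀ i s, 0 < φ i s)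
  (hg1 : ∫⁻ z in Icc (-B) B ×ˢ Icc (-B) B, ENNReal.ofReal (g z ^ p) ≤ 1)
  (hφ1 : ∀ i, ∫⁻ s in Icc (-B) B, ENNReal.ofReal (φ i s ^ p) ≤ 1)

include hg hφ hg0 hφ0 hg1 hφ1 in
theorem F0 (f : E (k + 2) → ℂ)
    (hf : ∀ x ∈ Cube (k + 2) B, ‖f x‖ ^ 2 ≤ g (x 0, x 1) ^ p * ∏ i : Fin k, φ i (x i.succ.succ) ^ p) :
    ∫⁻ x, ‖(Cube (k + 2) B).indicator f x‖ₑ ^ 2 ≤ 1 := by
  refine le_trans (lintegral_mono (g := (Cube (k + 2) B).indicator fun x =>
    ENNReal.ofReal (g (x 0, x 1) ^ p) * ∏ i : Fin k, ENNReal.ofReal (φ i (x i.succ.succ) ^ p)) ?_) ?_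
  · intro x
    refine ind_sq _ _ _ (fun x hx => ?_) x
    rw [← ENNReal.ofReal_prod_of_nonneg fun i _ => Real.rpow_nonneg (hφ0 i _).le _,
      ← ENNReal.ofReal_mul (Real.rpow_nonneg (hg0 _).le _)]
    exact enorm_sq_le (hf x hx)
  · rw [lintegral_indicator (cube_meas _ _), lint_prod B (fun z => ENNReal.ofReal (g z ^ p))
      (fun i s => ENNReal.ofReal (φ i s ^ p)) (hg.pow_const p).ennreal_ofReal
      fun i => ((hφ i).pow_const p).ennreal_ofReal]
    calc _ ≤ (1 : ℝ≥0∞) * ∏ i : Fin k, 1 :=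
          mul_le_mul' hg1 (Finset.prod_le_prod' fun i _ => hφ1 i)
      _ = 1 := by simp

include hφ hg0 hφ0 hg1 hφ1 in
theorem F2 (f : E (k + 2) → ℂ)
    (hf : ∀ x ∈ Cube (k + 2) B, ‖f x‖ ^ 2 ≤
      g (x 0, x 1) ^ (3 / 2 * p) * ∏ i : Fin k, φ i (x i.succ.succ) ^ p) :
    (∫⁻ z : ℝ × ℝ, (∫⁻ w : E k, ‖(Cube (k + 2) B).indicator f (inp z w)‖ₑ ^ 2) ^ (2 / 3 : ℝ)) ^
      (3 / 4 : ℝ) ≤ 1 := by
  have h1 : ∀ z, (∫⁻ w : E k, ‖(Cube (k + 2) B).indicator f (inp z w)‖ₑ ^ 2) ^ (2 / 3 : ℝ) ≤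
      (Icc (-B) B ×ˢ Icc (-B) B).indicator (fun z => ENNReal.ofReal (g z ^ p)) z := by
    intro z
    have h2 : ∫⁻ w : E k, ‖(Cube (k + 2) B).indicator f (inp z w)‖ₑ ^ 2 ≤
        (Icc (-B) B ×ˢ Icc (-B) B).indicator (fun z => ENNReal.ofReal (g z ^ (3 / 2 * p))) z := by
      refine le_trans (lintegral_mono (g := fun w => (Cube (k + 2) B).indicator (fun x =>
        ENNReal.ofReal (g (x 0, x 1) ^ (3 / 2 * p)) *
          ∏ i : Fin k, ENNReal.ofReal (φ i (x i.succ.succ) ^ p)) (inp z w)) ?_) ?_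
      · intro w
        refine ind_sq _ _ _ (fun x hx => ?_) _
        rw [← ENNReal.ofReal_prod_of_nonneg fun i _ => Real.rpow_nonneg (hφ0 i _).le _,
          ← ENNReal.ofReal_mul (Real.rpow_nonneg (hg0 _).le _)]
        exact enorm_sq_le (hf x hx)
      · rw [lint_slice B (fun z => ENNReal.ofReal (g z ^ (3 / 2 * p)))
          (fun i s => ENNReal.ofReal (φ i s ^ p)) fun i => ((hφ i).pow_const p).ennreal_ofReal]
        calc _ ≤ (Icc (-B) B ×ˢ Icc (-B) B).indicator
              (fun z => ENNReal.ofReal (g z ^ (3 / 2 * p))) z * ∏ i : Fin k, 1 :=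
              mul_le_mul' le_rfl (Finset.prod_le_prod' fun i _ => hφ1 i)
          _ = _ := by simp
    by_cases hz : z ∈ Icc (-B) B ×ˢ Icc (-B) B
    · rw [indicator_of_mem hz] at h2 ⊢
      refine (ENNReal.rpow_le_rpow h2 (by norm_num)).trans ?_
      rw [ENNReal.ofReal_rpow_of_nonneg (Real.rpow_nonneg (hg0 _).le _) (by norm_num),
        ← Real.rpow_mul (hg0 _).le]
      refine ENNReal.ofReal_le_ofReal (le_of_eq ?_)
      congr 1
      ring
    · rw [indicator_of_notMem hz] at h2 ⊢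
      rw [nonpos_iff_eq_zero.1 h2]
      simp
  have h4 : ∫⁻ z : ℝ × ℝ, (∫⁻ w : E k, ‖(Cube (k + 2) B).indicator f (inp z w)‖ₑ ^ 2) ^
      (2 / 3 : ℝ) ≤ 1 := by
    refine (lintegral_mono h1).trans ?_
    rw [lintegral_indicator (measurableSet_Icc.prod measurableSet_Icc)]
    exact hg1
  calc _ ≤ (1 : ℝ≥0∞) ^ (3 / 4 : ℝ) := ENNReal.rpow_le_rpow h4 (by norm_num)
    _ = 1 := by simp

theorem ne0 (i : Fin k) : (0 : Fin (k + 2)) ≠ i.succ.succ := (Fin.succ_ne_zero _).symm

theorem ne1 (i : Fin k) : (1 : Fin (k + 2)) ≠ i.succ.succ := by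
  intro h
  have h2 : (Fin.succ (0 : Fin (k + 1))) = i.succ.succ := h
  exact (Fin.succ_ne_zero i) (Fin.succ_injective _ h2).symm

theorem neij {i j : Fin k} (h : j ≠ i) : (j.succ.succ : Fin (k + 2)) ≠ i.succ.succ := by
  intro h'
  exact h (Fin.succ_injective _ (Fin.succ_injective _ h'))

include hB hg hφ hφ0 hg0 hg1 hφ1 in
theorem F1 (i : Fin k) (f : E (k + 2) → ℂ)
    (hf : ∀ x ∈ Cube (k + 2) B, ‖f x‖ ^ 2 ≤ φ i (x i.succ.succ) ^ (2 * p) *
      (g (x 0, x 1) ^ p * ∏ j : Fin k, (if j = i then 1 else φ j (x j.succ.succ) ^ p))) :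
    ∫⁻ s : ℝ, (∫⁻ y : E (k + 1), ‖(Cube (k + 2) B).indicator f (ins i.succ.succ s y)‖ₑ ^ 2) ^
      (1 / 2 : ℝ) ≤ 1 := by
  classical
  let ψ : Fin k → ℝ → ℝ≥0∞ := fun j s => if j = i then 1 else ENNReal.ofReal (φ j s ^ p)
  have hψm : ∀ j, Measurable (ψ j) := by
    intro j
    by_cases h : j = i
    · simp only [ψ, h, if_true]
      exact measurable_const
    · simp only [ψ, h, if_false]
      exact ((hφ j).pow_const p).ennreal_ofReal
  let Gp : ℝ × ℝ → ℝ≥0∞ := fun z => ENNReal.ofReal (g z ^ p)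
  have hGm : Measurable Gp := (hg.pow_const p).ennreal_ofReal
  let W : E (k + 2) → ℝ≥0∞ := fun x => Gp (x 0, x 1) * ∏ j : Fin k, ψ j (x j.succ.succ)
  have hWm : Measurable W := prodfun_meas Gp ψ hGm hψm
  have hW : ∀ s y, W (ins i.succ.succ s y) = W (ins i.succ.succ 0 y) := by
    intro s y
    simp only [W]
    rw [ins_ne _ _ (ne0 i) s 0, ins_ne _ _ (ne1 i) s 0]
    congr 1
    refine Finset.prod_congr rfl fun j _ => ?_
    by_cases h : j = i
    · simp only [ψ, h, if_true]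
    · rw [ins_ne _ _ (neij h) s 0]
  let Q : ℝ≥0∞ := ∫⁻ y : E (k + 1), (Cube (k + 1) B).indicator
    (fun y => W (ins i.succ.succ 0 y)) y
  have hins : Measurable (fun y : E (k + 1) => (ins i.succ.succ 0 y : E (k + 2))) :=
    (ins_meas (m := k + 1) i.succ.succ).comp (measurable_const.prodMk measurable_id)
  have hind : ∀ s y, (Cube (k + 2) B).indicator W (ins i.succ.succ s y) =
      (Icc (-B) B).indicator (fun _ => (1 : ℝ≥0∞)) s *
        (Cube (k + 1) B).indicator (fun y => W (ins i.succ.succ 0 y)) y := by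
    intro s y
    by_cases hs : |s| ≤ B
    · have hsI : s ∈ Icc (-B) B := abs_le.1 hs
      by_cases hy : y ∈ Cube (k + 1) B
      · rw [indicator_of_mem ((mem_cube_ins _ _ _ _).2 ⟨hs, hy⟩), indicator_of_mem hsI,
          indicator_of_mem hy, one_mul, hW]
      · rw [indicator_of_notMem (fun h => hy ((mem_cube_ins _ _ _ _).1 h).2),
          indicator_of_notMem hy, mul_zero]
    · have hsI : s ∉ Icc (-B) B := fun h => hs (abs_le.2 h)
      rw [indicator_of_notMem (fun h => hs ((mem_cube_ins _ _ _ _).1 h).1),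
        indicator_of_notMem hsI, zero_mul]
  have hQm : Measurable ((Cube (k + 1) B).indicator fun y => W (ins i.succ.succ 0 y)) :=
    (hWm.comp hins).indicator (cube_meas _ _)
  have hQ : Q ≤ 1 := by
    have h1 : ∫⁻ x in Cube (k + 2) B, W x = ENNReal.ofReal (2 * B) * Q := by
      rw [← lintegral_indicator (cube_meas _ _), lint_ins i.succ.succ _
        (hWm.indicator (cube_meas _ _))]
      simp only [hind]
      have h2 : ∀ s : ℝ, ∫⁻ y : E (k + 1), (Icc (-B) B).indicator (fun _ => (1 : ℝ≥0∞)) s *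
          (Cube (k + 1) B).indicator (fun y => W (ins i.succ.succ 0 y)) y =
          (Icc (-B) B).indicator (fun _ => (1 : ℝ≥0∞)) s * Q := fun s =>
        lintegral_const_mul _ hQm
      simp only [h2]
      rw [lintegral_mul_const _ (measurable_const.indicator measurableSet_Icc),
        lintegral_indicator measurableSet_Icc, vol_Icc]
    have h3 : ∫⁻ x in Cube (k + 2) B, W x ≤ ENNReal.ofReal (2 * B) := by
      rw [lint_prod B Gp ψ hGm hψm]
      have h4 : ∀ j, ∫⁻ s in Icc (-B) B, ψ j s ≤ if j = i then ENNReal.ofReal (2 * B) else 1 := by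
        intro j
        by_cases h : j = i
        · simp only [ψ, h, if_true]
          rw [vol_Icc]
        · simp only [ψ, h, if_false]
          exact hφ1 j
      calc _ ≤ (1 : ℝ≥0∞) * ∏ j : Fin k, (if j = i then ENNReal.ofReal (2 * B) else 1) :=
            mul_le_mul' hg1 (Finset.prod_le_prod' fun j _ => h4 j)
        _ = ENNReal.ofReal (2 * B) := by simp
    rw [h1] at h3
    have h5 : ENNReal.ofReal (2 * B) ≠ 0 := by
      rw [Ne, ENNReal.ofReal_eq_zero]
      linarith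
    have h6 : ENNReal.ofReal (2 * B) * Q ≤ ENNReal.ofReal (2 * B) * 1 := by rwa [mul_one]
    exact (ENNReal.mul_le_mul_iff_right h5 ENNReal.ofReal_ne_top).1 h6
  have hpt : ∀ s y, ‖(Cube (k + 2) B).indicator f (ins i.succ.succ s y)‖ₑ ^ 2 ≤
      (Icc (-B) B).indicator (fun s => ENNReal.ofReal (φ i s ^ (2 * p))) s *
        (Cube (k + 1) B).indicator (fun y => W (ins i.succ.succ 0 y)) y := by
    intro s y
    by_cases hs : |s| ≤ B
    · have hsI : s ∈ Icc (-B) B := abs_le.1 hs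
      by_cases hy : y ∈ Cube (k + 1) B
      · have hx : ins i.succ.succ s y ∈ Cube (k + 2) B := (mem_cube_ins _ _ _ _).2 ⟨hs, hy⟩
        rw [indicator_of_mem hx, indicator_of_mem hsI, indicator_of_mem hy, ← hW s y]
        have h7 := hf _ hx
        refine (enorm_sq_le h7).trans (le_of_eq ?_)
        rw [ENNReal.ofReal_mul (Real.rpow_nonneg (hφ0 i _).le _),
          ENNReal.ofReal_mul (Real.rpow_nonneg (hg0 _).le _),
          ENNReal.ofReal_prod_of_nonneg fun j _ => by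
            split_ifs
            · exact zero_le_one
            · exact Real.rpow_nonneg (hφ0 j _).le _]
        simp only [W, Gp]
        rw [ins_same]
        congr 2
        refine Finset.prod_congr rfl fun j _ => ?_
        simp only [ψ]
        split_ifs
        · exact ENNReal.ofReal_one
        · rfl
      · rw [indicator_of_notMem (fun h => hy ((mem_cube_ins _ _ _ _).1 h).2)]
        simp
    · rw [indicator_of_notMem (fun h => hs ((mem_cube_ins _ _ _ _).1 h).1)]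
      simp
  have hs2 : ∀ s, (∫⁻ y : E (k + 1), ‖(Cube (k + 2) B).indicator f (ins i.succ.succ s y)‖ₑ ^ 2) ^
      (1 / 2 : ℝ) ≤ (Icc (-B) B).indicator (fun s => ENNReal.ofReal (φ i s ^ p)) s := by
    intro s
    have h8 : ∫⁻ y : E (k + 1), ‖(Cube (k + 2) B).indicator f (ins i.succ.succ s y)‖ₑ ^ 2 ≤
        (Icc (-B) B).indicator (fun s => ENNReal.ofReal (φ i s ^ (2 * p))) s := by
      refine (lintegral_mono (hpt s)).trans ?_
      rw [lintegral_const_mul _ hQm]
      calc _ ≤ (Icc (-B) B).indicator (fun s => ENNReal.ofReal (φ i s ^ (2 * p))) s * 1 :=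
            mul_le_mul' le_rfl hQ
        _ = _ := mul_one _
    by_cases hs : s ∈ Icc (-B) B
    · rw [indicator_of_mem hs] at h8 ⊢
      refine (ENNReal.rpow_le_rpow h8 (by norm_num)).trans ?_
      rw [ENNReal.ofReal_rpow_of_nonneg (Real.rpow_nonneg (hφ0 i _).le _) (by norm_num),
        ← Real.rpow_mul (hφ0 i _).le]
      refine ENNReal.ofReal_le_ofReal (le_of_eq ?_)
      congr 1
      ring
    · rw [indicator_of_notMem hs] at h8 ⊢
      rw [nonpos_iff_eq_zero.1 h8]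
      simp
  refine (lintegral_mono hs2).trans ?_
  rw [lintegral_indicator measurableSet_Icc]
  exact hφ1 i

end F

end Pool.Agent.TH225.BR
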