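import Mathlib
import Pool.Agent.TH225.BR.D
import Pool.Agent.TH26.J667
import Pool.Agent.TH429.J635

set_option autoImplicit false

/-! The vertex bounds and the interpolated form. -/

namespace Pool.Agent.TH225.BR

open MeasureTheory Set Complex
open scoped ENNReal RealInnerProductSpace
open Pool.Agent.H438R2.RZ (e Good ft Pl Bump TR)
open Pool.Agent.H789R2.FR (E)
open Pool.Agent.TH278

/-- the product weight -/
def wt {k : ℕ} (g : ℝ × ℝ → ℝ) (φ : Fin k → ℝ → ℝ) (y : E (k + 2)) : ℝ :=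
  g (y 0, y 1) * ∏ i : Fin k, φ i (y i.succ.succ)

/-- functions at the vertices -/
noncomputable def Fv {k : ℕ} (p : ℝ) (g : ℝ × ℝ → ℝ) (φ : Fin k → ℝ → ℝ) :
    Option (Option (Fin k)) → E (k + 2) → ℝ
  | none => fun y => wt g φ y ^ (p / 2)
  | some none => fun y => wt g φ y ^ (p / 2) * g (y 0, y 1) ^ (p / 4)
  | some (some i) => fun y => wt g φ y ^ (p / 2) * φ i (y i.succ.succ) ^ (p / 2)

/-- weights at the vertices -/
noncomputable def Rv {k : ℕ} (Ms : ℝ × ℝ → ℝ) (Mi : Fin k → ℝ → ℝ) :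
    Option (Option (Fin k)) → E (k + 2) → ℝ
  | none => fun _ => 1
  | some none => fun x => Ms (x 0, x 1) ^ (-(1 / 4) : ℝ)
  | some (some i) => fun x => Mi i (x i.succ.succ) ^ (-(1 / 2) : ℝ)

/-- exponents -/
noncomputable def θv (k : ℕ) (τ : ℝ) : Option (Option (Fin k)) → ℝ
  | none => 1 - τ
  | some none => 2 * τ / ((k : ℝ) + 2)
  | some (some _) => τ / ((k : ℝ) + 2)

/-- constants at the vertices -/
def Av (k : ℕ) (A₀ A₁ A₂ : ℝ) : Option (Option (Fin k)) → ℝ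
  | none => A₀
  | some none => A₂
  | some (some _) => A₁

theorem wt_pos {k : ℕ} {g : ℝ × ℝ → ℝ} {φ : Fin k → ℝ → ℝ} (hg : ∀ z, 0 < g z)
    (hφ : ∀ i s, 0 < φ i s) (y : E (k + 2)) : 0 < wt g φ y :=
  mul_pos (hg _) (Finset.prod_pos fun i _ => hφ i _)

theorem wt_meas {k : ℕ} {g : ℝ × ℝ → ℝ} {φ : Fin k → ℝ → ℝ} (hg : Measurable g)
    (hφ : ∀ i, Measurable (φ i)) : Measurable (wt g φ : E (k + 2) → ℝ) := by
  unfold wt
  exact (hg.comp ((coord_meas 0).prodMk (coord_meas 1))).mul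
    (Finset.measurable_prod _ fun i _ => (hφ i).comp (coord_meas _))

theorem wt_BD {k : ℕ} {g : ℝ × ℝ → ℝ} {φ : Fin k → ℝ → ℝ} (hg : BD g) (hφ : ∀ i, BD (φ i)) :
    BD (wt g φ : E (k + 2) → ℝ) := by
  unfold wt
  exact (hg.comp fun y : E (k + 2) => (y 0, y 1)).mul
    (BD.prod _ _ fun i _ => (hφ i).comp fun y : E (k + 2) => y i.succ.succ)

theorem Fv_meas {k : ℕ} (p : ℝ) {g : ℝ × ℝ → ℝ} {φ : Fin k → ℝ → ℝ} (hg : Measurable g)
    (hφ : ∀ i, Measurable (φ i)) (c : Option (Option (Fin k))) : Measurable (Fv p g φ c) := by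
  have hw : Measurable (wt g φ : E (k + 2) → ℝ) := wt_meas hg hφ
  rcases c with _ | _ | i
  · exact hw.pow_const _
  · exact (hw.pow_const _).mul ((hg.comp ((coord_meas 0).prodMk (coord_meas 1))).pow_const _)
  · exact (hw.pow_const _).mul (((hφ i).comp (coord_meas _)).pow_const _)

theorem Fv_BD {k : ℕ} (p : ℝ) {g : ℝ × ℝ → ℝ} {φ : Fin k → ℝ → ℝ} (hg : BD g)
    (hφ : ∀ i, BD (φ i)) (c : Option (Option (Fin k))) : BD (Fv p g φ c) := by
  have hw : BD (wt g φ : E (k + 2) → ℝ) := wt_BD hg hφ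
  rcases c with _ | _ | i
  · exact hw.rpow _
  · exact (hw.rpow _).mul ((hg.comp fun y : E (k + 2) => (y 0, y 1)).rpow _)
  · exact (hw.rpow _).mul (((hφ i).comp fun y : E (k + 2) => y i.succ.succ).rpow _)

theorem Rv_meas {k : ℕ} {Ms : ℝ × ℝ → ℝ} {Mi : Fin k → ℝ → ℝ} (hg : Measurable Ms)
    (hφ : ∀ i, Measurable (Mi i)) (c : Option (Option (Fin k))) : Measurable (Rv Ms Mi c) := by
  rcases c with _ | _ | i
  · exact measurable_const
  · exact (hg.comp ((coord_meas 0).prodMk (coord_meas 1))).pow_const _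
  · exact ((hφ i).comp (coord_meas _)).pow_const _

theorem Rv_BD {k : ℕ} {Ms : ℝ × ℝ → ℝ} {Mi : Fin k → ℝ → ℝ} (hg : BD Ms)
    (hφ : ∀ i, BD (Mi i)) (c : Option (Option (Fin k))) : BD (Rv Ms Mi c) := by
  rcases c with _ | _ | i
  · exact BD.one
  · exact (hg.comp fun y : E (k + 2) => (y 0, y 1)).rpow _
  · exact ((hφ i).comp fun y : E (k + 2) => y i.succ.succ).rpow _

theorem prodF {k : ℕ} {p τ : ℝ} (hp : 0 < p)
    (hpτ : 1 / p = 1 / 2 + τ / (2 * ((k : ℝ) + 2))) {g : ℝ × ℝ → ℝ} {φ : Fin k → ℝ → ℝ}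
    (hg : ∀ z, 0 < g z) (hφ : ∀ i s, 0 < φ i s) (y : E (k + 2)) :
    ∏ c, Fv p g φ c y ^ θv k τ c = wt g φ y := by
  have hw := wt_pos hg hφ y
  have hk : (k : ℝ) + 2 ≠ 0 := by positivity
  have hF : ∀ c, 0 < Fv p g φ c y := by
    intro c
    rcases c with _ | _ | i
    · exact Real.rpow_pos_of_pos hw _
    · exact mul_pos (Real.rpow_pos_of_pos hw _) (Real.rpow_pos_of_pos (hg _) _)
    · exact mul_pos (Real.rpow_pos_of_pos hw _) (Real.rpow_pos_of_pos (hφ i _) _)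
  have hL : 0 < ∏ c, Fv p g φ c y ^ θv k τ c :=
    Finset.prod_pos fun c _ => Real.rpow_pos_of_pos (hF c) _
  refine Real.log_injOn_pos (mem_Ioi.2 hL) (mem_Ioi.2 hw) ?_
  rw [Real.log_prod fun c _ => (Real.rpow_pos_of_pos (hF c) _).ne']
  simp only [Real.log_rpow (hF _)]
  rw [Fintype.sum_option, Fintype.sum_option]
  simp only [θv, Fv]
  have h1 : Real.log (wt g φ y ^ (p / 2) * g (y 0, y 1) ^ (p / 4)) =
      p / 2 * Real.log (wt g φ y) + p / 4 * Real.log (g (y 0, y 1)) := by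
    rw [Real.log_mul (Real.rpow_pos_of_pos hw _).ne' (Real.rpow_pos_of_pos (hg _) _).ne',
      Real.log_rpow hw, Real.log_rpow (hg _)]
  have h2 : ∀ i : Fin k, Real.log (wt g φ y ^ (p / 2) * φ i (y i.succ.succ) ^ (p / 2)) =
      p / 2 * Real.log (wt g φ y) + p / 2 * Real.log (φ i (y i.succ.succ)) := by
    intro i
    rw [Real.log_mul (Real.rpow_pos_of_pos hw _).ne' (Real.rpow_pos_of_pos (hφ _ _) _).ne',
      Real.log_rpow hw, Real.log_rpow (hφ _ _)]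
  have h3 : Real.log (wt g φ y) = Real.log (g (y 0, y 1)) +
      ∑ i : Fin k, Real.log (φ i (y i.succ.succ)) := by
    unfold wt
    rw [Real.log_mul (hg _).ne' (Finset.prod_pos fun i _ => hφ i _).ne',
      Real.log_prod fun i _ => (hφ i _).ne']
  rw [Real.log_rpow hw, h1]
  simp only [h2]
  rw [← Finset.mul_sum, Finset.sum_add_distrib, Finset.sum_const, Finset.card_univ,
    Fintype.card_fin, nsmul_eq_mul, ← Finset.mul_sum]
  set S := ∑ i : Fin k, Real.log (φ i (y i.succ.succ)) with hS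
  have hSS : S = Real.log (wt g φ y) - Real.log (g (y 0, y 1)) := by rw [h3]; ring
  rw [hSS]
  have hpp : p * (1 / 2 + τ / (2 * ((k : ℝ) + 2))) = 1 := by
    rw [← hpτ]
    field_simp
  set Lw := Real.log (wt g φ y)
  set Lg := Real.log (g (y 0, y 1))
  have hgoal : (1 - τ) * (p / 2 * Lw) + (2 * τ / ((k : ℝ) + 2) * (p / 2 * Lw + p / 4 * Lg) +
      τ / ((k : ℝ) + 2) * ((k : ℝ) * (p / 2 * Lw) + p / 2 * (Lw - Lg))) =
      (p * (1 / 2 + τ / (2 * ((k : ℝ) + 2)))) * Lw := by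
    field_simp
    ring
  rw [hgoal, hpp, one_mul]

theorem prodR {k : ℕ} {τ : ℝ} {Ms : ℝ × ℝ → ℝ} {Mi : Fin k → ℝ → ℝ}
    (hg : ∀ z, 0 < Ms z) (hφ : ∀ i s, 0 < Mi i s) (x : E (k + 2)) :
    ∏ c, Rv Ms Mi c x ^ θv k τ c = wt Ms Mi x ^ (-(τ / (2 * ((k : ℝ) + 2)))) := by
  have hw := wt_pos hg hφ x
  have hk : (k : ℝ) + 2 ≠ 0 := by positivity
  have hF : ∀ c, 0 < Rv Ms Mi c x := by
    intro c
    rcases c with _ | _ | i
    · exact one_pos
    · exact Real.rpow_pos_of_pos (hg _) _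
    · exact Real.rpow_pos_of_pos (hφ i _) _
  have hL : 0 < ∏ c, Rv Ms Mi c x ^ θv k τ c :=
    Finset.prod_pos fun c _ => Real.rpow_pos_of_pos (hF c) _
  refine Real.log_injOn_pos (mem_Ioi.2 hL) (mem_Ioi.2 (Real.rpow_pos_of_pos hw _)) ?_
  rw [Real.log_prod fun c _ => (Real.rpow_pos_of_pos (hF c) _).ne']
  simp only [Real.log_rpow (hF _)]
  rw [Fintype.sum_option, Fintype.sum_option, Real.log_rpow hw]
  simp only [θv, Rv]
  have h2 : ∀ i : Fin k, Real.log (Mi i (x i.succ.succ) ^ (-(1 / 2) : ℝ)) =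
      -(1 / 2) * Real.log (Mi i (x i.succ.succ)) := fun i => Real.log_rpow (hφ i _) _
  have h3 : Real.log (wt Ms Mi x) = Real.log (Ms (x 0, x 1)) +
      ∑ i : Fin k, Real.log (Mi i (x i.succ.succ)) := by
    unfold wt
    rw [Real.log_mul (hg _).ne' (Finset.prod_pos fun i _ => hφ i _).ne',
      Real.log_prod fun i _ => (hφ i _).ne']
  simp only [h2]
  rw [Real.log_rpow (hg _), Real.log_one, h3, ← Finset.mul_sum, ← Finset.mul_sum]
  field_simp
  ring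

theorem prodA {k : ℕ} {τ A₀ A₁ A₂ : ℝ} (h1 : 0 < A₁) :
    ∏ c, Av k A₀ A₁ A₂ c ^ θv k τ c = A₀ ^ (1 - τ) * A₁ ^ ((k : ℝ) * (τ / ((k : ℝ) + 2))) *
      A₂ ^ (2 * τ / ((k : ℝ) + 2)) := by
  rw [Fintype.prod_option, Fintype.prod_option]
  simp only [θv, Av, Finset.prod_const, Finset.card_univ, Fintype.card_fin]
  rw [← Real.rpow_natCast (A₁ ^ (τ / ((k : ℝ) + 2))) k, ← Real.rpow_mul h1.le,
    mul_comm (k : ℝ) (τ / ((k : ℝ) + 2))]
  ring

theorem sumθ (k : ℕ) (τ : ℝ) : ∑ c, θv k τ c = 1 := by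
  rw [Fintype.sum_option, Fintype.sum_option]
  simp only [θv, Finset.sum_const, Finset.card_univ, Fintype.card_fin, nsmul_eq_mul]
  have hk : (k : ℝ) + 2 ≠ 0 := by positivity
  field_simp
  ring

end Pool.Agent.TH225.BR
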