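import Mathlib
import Pool.Agent.TH225.BR.E

set_option autoImplicit false

/-! The vertex bounds. -/

namespace Pool.Agent.TH225.BR

open MeasureTheory Set Complex
open scoped ENNReal RealInnerProductSpace
open Pool.Agent.H438R2.RZ (e Good ft Pl Bump TR)
open Pool.Agent.H789R2.FR (E)
open Pool.Agent.TH278

theorem norm_uF {u : ℂ} (hu : ‖u‖ ≤ 1) {F : ℝ} (hF : 0 ≤ F) : ‖u * ((F : ℝ) : ℂ)‖ ≤ F := by
  rw [norm_mul, Complex.norm_real, Real.norm_eq_abs, abs_of_nonneg hF]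
  exact mul_le_of_le_one_left hF hu

/-- the vertex forms in terms of `Bf` -/
theorem form_eq {n : ℕ} {B : ℝ} {ψ : ℝ → ℝ} (hψ : Bump ψ) (L : ℝ) (Hh F R : E n → ℝ)
    (u v : E n → ℂ) (hint : Integrable ((Cube n B).indicator fun y => u y * ((F y : ℝ) : ℂ))) :
    ∫ x in Cube n B, ∫ y in Cube n B, (Kc n ψ L (x - y) * ((Hh x : ℝ) : ℂ)) *
      (u y * ((F y : ℝ) : ℂ)) * (v x * ((R x : ℝ) : ℂ)) =
      Bf ψ L ((Cube n B).indicator fun y => u y * ((F y : ℝ) : ℂ))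
        ((Cube n B).indicator fun x => (v x * ((Hh x * R x : ℝ) : ℂ))) := by
  rw [Bf_eq hψ L _ _ hint]
  refine integral_congr_ae (ae_of_all _ fun x => ?_)
  refine integral_congr_ae (ae_of_all _ fun y => ?_)
  simp only
  push_cast
  ring

section V

variable {k : ℕ} {B p : ℝ} (hB : 0 < B) (hp : 0 < p) (g : ℝ × ℝ → ℝ) (φ : Fin k → ℝ → ℝ)
  (hg : Measurable g) (hφ : ∀ i, Measurable (φ i)) (hgB : BD g) (hφB : ∀ i, BD (φ i))
  (hg1 : ∫⁻ z in Icc (-B) B ×ˢ Icc (-B) B, ENNReal.ofReal (g z ^ p) ≤ 1)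
  (hφ1 : ∀ i, ∫⁻ s in Icc (-B) B, ENNReal.ofReal (φ i s ^ p) ≤ 1)
  {ψ : ℝ → ℝ} (hψ : Bump ψ) (L A₀ A₁ A₂ : ℝ) (hVB : VB k ψ L A₀ A₁ A₂)
  (H : E (k + 2) → ℝ) (hH : Measurable H) (hH0 : ∀ x, 0 ≤ H x) (CH : ℝ) (hHC : ∀ x, H x ≤ CH)
  (hHD : ∫⁻ x in Cube (k + 2) B, ENNReal.ofReal (H x) ≤ 1)
  (Ms : ℝ × ℝ → ℝ) (Mi : Fin k → ℝ → ℝ) (hMsm : Measurable Ms) (hMim : ∀ i, Measurable (Mi i))
  (hMs0 : ∀ z, 0 ≤ Ms z) (hMi0 : ∀ i s, 0 ≤ Mi i s) (CM : ℝ) (hMsC : ∀ z, Ms z ≤ CM)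
  (hMiC : ∀ i s, Mi i s ≤ CM)
  (hMs : ∀ z, ENNReal.ofReal (Ms z) = ∫⁻ w : E k, (Cube (k + 2) B).indicator
      (fun x => ENNReal.ofReal (H x)) (inp z w))
  (hMi : ∀ i s, ENNReal.ofReal (Mi i s) = ∫⁻ y : E (k + 1), (Cube (k + 2) B).indicator
      (fun x => ENNReal.ofReal (H x)) (ins i.succ.succ s y))
  (ε : ℝ) (hε : 0 < ε)

include hMs0 hMsC hε in
theorem MsB : BD (fun z => Ms z + ε) :=
  ⟨ε, CM + ε, hε, fun z => ⟨by linarith [hMs0 z], by linarith [hMsC z]⟩⟩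

include hMi0 hMiC hε in
theorem MiB (i : Fin k) : BD (fun s => Mi i s + ε) :=
  ⟨ε, CM + ε, hε, fun z => ⟨by linarith [hMi0 i z], by linarith [hMiC i z]⟩⟩

include hB hg hφ hgB hφB hg1 hφ1 hψ hVB hH hH0 hHC hHD hMsm hMim hMs0 hMi0 hMsC hMiC hMs hMi hε in
theorem vertex (c : Option (Option (Fin k))) (u v : E (k + 2) → ℂ) (hu : Measurable u)
    (hu1 : ∀ y, ‖u y‖ ≤ 1) (hv : Measurable v) (hv1 : ∀ x, ‖v x‖ ≤ 1) :
    ‖∫ x in Cube (k + 2) B, ∫ y in Cube (k + 2) B,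
      (Kc (k + 2) ψ L (x - y) * ((H x ^ (1 / 2 : ℝ) : ℝ) : ℂ)) *
      (u y * ((Fv p g φ c y : ℝ) : ℂ)) *
      (v x * ((Rv (fun z => Ms z + ε) (fun i s => Mi i s + ε) c x : ℝ) : ℂ))‖ ≤
      Av k A₀ A₁ A₂ c := by
  have hg0 : ∀ z, 0 < g z := hgB.pos
  have hφ0 : ∀ i s, 0 < φ i s := fun i => (hφB i).pos
  have hwp : ∀ y : E (k + 2), 0 < wt g φ y := wt_pos hg0 hφ0
  have hFm := Fv_meas p hg hφ c
  obtain ⟨mF, MF, hmF, hFb⟩ := Fv_BD p hgB hφB c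
  have hMsB := MsB Ms hMs0 CM hMsC ε hε
  have hMiB := MiB Mi hMi0 CM hMiC ε hε
  have hRm := Rv_meas (Ms := fun z => Ms z + ε) (Mi := fun i s => Mi i s + ε)
    (hMsm.add_const ε) (fun i => (hMim i).add_const ε) c
  obtain ⟨mR, MR, hmR, hRb⟩ := Rv_BD hMsB hMiB c
  have hHh : Measurable fun x => H x ^ (1 / 2 : ℝ) := hH.pow_const _
  have hHh0 : ∀ x, 0 ≤ H x ^ (1 / 2 : ℝ) := fun x => Real.rpow_nonneg (hH0 x) _
  have hHhC : ∀ x, H x ^ (1 / 2 : ℝ) ≤ CH ^ (1 / 2 : ℝ) := fun x =>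
    Real.rpow_le_rpow (hH0 x) (hHC x) (by norm_num)
  have hF0 : ∀ y, 0 ≤ Fv p g φ c y := fun y => hmF.le.trans (hFb y).1
  have hR0 : ∀ x, 0 ≤ Rv (fun z => Ms z + ε) (fun i s => Mi i s + ε) c x := fun x =>
    hmR.le.trans (hRb x).1
  have hfm : Measurable fun y => u y * ((Fv p g φ c y : ℝ) : ℂ) := hu.mul hFm.complex_ofReal
  have hfb : ∀ y, ‖u y * ((Fv p g φ c y : ℝ) : ℂ)‖ ≤ MF := fun y =>
    (norm_uF (hu1 y) (hF0 y)).trans (hFb y).2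
  have hhm : Measurable fun x => v x * ((H x ^ (1 / 2 : ℝ) *
      Rv (fun z => Ms z + ε) (fun i s => Mi i s + ε) c x : ℝ) : ℂ) :=
    hv.mul (hHh.mul hRm).complex_ofReal
  have hhb' : ∀ x, ‖v x * ((H x ^ (1 / 2 : ℝ) *
      Rv (fun z => Ms z + ε) (fun i s => Mi i s + ε) c x : ℝ) : ℂ)‖ ≤ H x ^ (1 / 2 : ℝ) *
      Rv (fun z => Ms z + ε) (fun i s => Mi i s + ε) c x := fun x =>
    norm_uF (hv1 x) (mul_nonneg (hHh0 x) (hR0 x))
  have hhb : ∀ x, ‖v x * ((H x ^ (1 / 2 : ℝ) *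
      Rv (fun z => Ms z + ε) (fun i s => Mi i s + ε) c x : ℝ) : ℂ)‖ ≤
      CH ^ (1 / 2 : ℝ) * MR := fun x =>
    (hhb' x).trans (mul_le_mul (hHhC x) (hRb x).2 (hR0 x) ((hHh0 x).trans (hHhC x)))
  have hsqF : ∀ y, ‖u y * ((Fv p g φ c y : ℝ) : ℂ)‖ ^ 2 ≤ Fv p g φ c y ^ 2 := fun y =>
    pow_le_pow_left₀ (norm_nonneg _) (norm_uF (hu1 y) (hF0 y)) 2
  have hsqH : ∀ x, ‖v x * ((H x ^ (1 / 2 : ℝ) *
      Rv (fun z => Ms z + ε) (fun i s => Mi i s + ε) c x : ℝ) : ℂ)‖ ^ 2 ≤ H x *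
      Rv (fun z => Ms z + ε) (fun i s => Mi i s + ε) c x ^ 2 := by
    intro x
    refine (pow_le_pow_left₀ (norm_nonneg _) (hhb' x) 2).trans (le_of_eq ?_)
    rw [mul_pow, ← Real.rpow_natCast (H x ^ (1 / 2 : ℝ)), ← Real.rpow_mul (hH0 x)]
    norm_num
  have hGf := good_ind (B := B) hB.le _ hfm MF hfb
  have hGh := good_ind (B := B) hB.le _ hhm _ hhb
  rw [form_eq hψ L (fun x => H x ^ (1 / 2 : ℝ)) _ _ u v (int_ind _ hfm MF hfb)]
  have hwpow : ∀ y : E (k + 2), (wt g φ y ^ (p / 2)) ^ 2 =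
      g (y 0, y 1) ^ p * ∏ i : Fin k, φ i (y i.succ.succ) ^ p := by
    intro y
    rw [← Real.rpow_natCast, ← Real.rpow_mul (hwp y).le]
    have : p / 2 * ((2 : ℕ) : ℝ) = p := by push_cast; ring
    rw [this]
    unfold wt
    rw [Real.mul_rpow (hg0 _).le (Finset.prod_pos fun i _ => hφ0 i _).le,
      Real.finset_prod_rpow _ _ fun i _ => (hφ0 i _).le]
  rcases c with _ | _ | i
  · -- L^2
    refine norm_le_of hVB.pos₀.le ((hVB.v0 _ _ hGf hGh).trans (le_of_eq (mul_assoc _ _ _))) ?_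
    have h1 := F0 g φ hg hφ hg0 hφ0 hg1 hφ1 (fun y => u y * ((Fv p g φ none y : ℝ) : ℂ))
      (fun y _ => (hsqF y).trans (le_of_eq (hwpow y)))
    have h2 := H0 H hHD (fun x => v x * ((H x ^ (1 / 2 : ℝ) *
      Rv (fun z => Ms z + ε) (fun i s => Mi i s + ε) none x : ℝ) : ℂ)) (fun x _ => by
        refine (hsqH x).trans (le_of_eq ?_)
        simp only [Rv]
        ring)
    calc _ ≤ (1 : ℝ≥0∞) ^ (1 / 2 : ℝ) * (1 : ℝ≥0∞) ^ (1 / 2 : ℝ) :=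
          mul_le_mul' (ENNReal.rpow_le_rpow h1 (by norm_num))
            (ENNReal.rpow_le_rpow h2 (by norm_num))
      _ = 1 := by simp
  · -- two variables
    refine norm_le_of hVB.pos₂.le ((hVB.v2 _ _ hGf hGh).trans (le_of_eq (mul_assoc _ _ _))) ?_
    have h1 := F2 g φ hφ hg0 hφ0 hg1 hφ1 (fun y => u y * ((Fv p g φ (some none) y : ℝ) : ℂ))
      (fun y _ => by
        refine (hsqF y).trans (le_of_eq ?_)
        simp only [Fv]
        rw [mul_pow, hwpow, ← Real.rpow_natCast (g (y 0, y 1) ^ (p / 4)),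
          ← Real.rpow_mul (hg0 _).le]
        have h3 : g (y 0, y 1) ^ (3 / 2 * p) = g (y 0, y 1) ^ p *
            g (y 0, y 1) ^ (p / 4 * ((2 : ℕ) : ℝ)) := by
          rw [← Real.rpow_add (hg0 _)]
          congr 1
          push_cast
          ring
        rw [h3]
        ring)
    have h2 := H2 H hH hHD Ms hMs0 hMs ε hε (fun x => v x * ((H x ^ (1 / 2 : ℝ) *
      Rv (fun z => Ms z + ε) (fun i s => Mi i s + ε) (some none) x : ℝ) : ℂ)) (fun x _ => by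
        refine (hsqH x).trans (le_of_eq ?_)
        have hpos : 0 ≤ Ms (x 0, x 1) + ε := by linarith [hMs0 (x 0, x 1)]
        simp only [Rv]
        rw [← Real.rpow_natCast ((Ms (x 0, x 1) + ε) ^ (-(1 / 4) : ℝ)), ← Real.rpow_mul hpos]
        norm_num
        ring)
    calc _ ≤ (1 : ℝ≥0∞) * 1 := mul_le_mul' h1 h2
      _ = 1 := by simp
  · -- one variable
    have h2 := fun s => H1 H i.succ.succ (Mi i) (hMi0 i) (hMi i) ε hε
      (fun x => v x * ((H x ^ (1 / 2 : ℝ) *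
      Rv (fun z => Ms z + ε) (fun i s => Mi i s + ε) (some (some i)) x : ℝ) : ℂ)) (fun x _ => by
        refine (hsqH x).trans (le_of_eq ?_)
        have hpos : 0 ≤ Mi i (x i.succ.succ) + ε := by linarith [hMi0 i (x i.succ.succ)]
        simp only [Rv]
        rw [← Real.rpow_natCast ((Mi i (x i.succ.succ) + ε) ^ (-(1 / 2) : ℝ)),
          ← Real.rpow_mul hpos]
        norm_num
        rw [Real.rpow_neg_one]
        ring) s
    refine norm_le_of hVB.pos₁.le (hVB.v1 _ _ hGf hGh i.succ.succ h2) ?_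
    refine F1 hB g φ hg hφ hg0 hφ0 hg1 hφ1 i _ (fun y _ => ?_)
    refine (hsqF y).trans (le_of_eq ?_)
    simp only [Fv]
    rw [mul_pow, hwpow, ← Real.rpow_natCast (φ i (y i.succ.succ) ^ (p / 2)),
      ← Real.rpow_mul (hφ0 i _).le]
    have h4 : ∏ j : Fin k, φ j (y j.succ.succ) ^ p = φ i (y i.succ.succ) ^ p *
        ∏ j : Fin k, (if j = i then 1 else φ j (y j.succ.succ) ^ p) := by
      have h5 : ∀ j : Fin k, φ j (y j.succ.succ) ^ p =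
          (if j = i then φ i (y i.succ.succ) ^ p else 1) *
          (if j = i then 1 else φ j (y j.succ.succ) ^ p) := by
        intro j
        by_cases h : j = i
        · subst h; simp
        · simp [h]
      rw [Finset.prod_congr rfl fun j _ => h5 j, Finset.prod_mul_distrib]
      congr 1
      simp
    have h6 : φ i (y i.succ.succ) ^ (2 * p) = φ i (y i.succ.succ) ^ p *
        φ i (y i.succ.succ) ^ (p / 2 * ((2 : ℕ) : ℝ)) := by
      rw [← Real.rpow_add (hφ0 i _)]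
      congr 1
      push_cast
      ring
    rw [h4, h6]
    ring

end V

end Pool.Agent.TH225.BR
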